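import Pool.Agent.AltGenus.Main
import Pool.Agent.Helper19.NS.Hopf

/-!
# The alternating genus of non-split links is unbounded

The links `hopfLink (N + 1)` (`2N + 2` fibres of the Hopf fibration of `S³`) are non-split and have alternating
genus at least `N`.
-/

set_option autoImplicit false

namespace Pool.Agent.Results.MP_89478c_gt.NonSplitLargeGenus

open AltGenus Pool.Agent.Helper19.NS

/-- For every `N` there is a non-split link in `S³` with alternating genus at least `N`. -/
theorem result : ∀ N : ℕ, ∃ (n : ℕ) (K : Link n), NonSplit K ∧ (N : ℕ∞) ≤ gAlt K := by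
  intro N
  refine ⟨2 * (N + 1), hopfLink (N + 1), hopf_nonSplit (N + 1), ?_⟩
  unfold gAlt
  refine le_iInf fun g => le_iInf fun hg => ?_
  by_contra hlt
  have h1 : g < N := by
    have h2 := not_le.1 hlt
    exact_mod_cast h2
  exact hopf_contra (by omega) hg

end Pool.Agent.Results.MP_89478c_gt.NonSplitLargeGenus
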